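import Pool.Agent.H.MP_e7dc11_co.Main

set_option autoImplicit false

namespace Pool.Agent.Results.MP_e7dc11_co.No
open Pool.Agent.H.MP_e7dc11_co

/-- connected symmetric configuration `v_3` with points `α`, blocks `β`, incidence `I` -/
def Config3 {α β : Type} (I : α → β → Prop) : Prop :=
  Finite α ∧ Finite β ∧ Nat.card α = Nat.card β ∧
    (∀ l, {p | I p l}.ncard = 3) ∧ (∀ p, {l | I p l}.ncard = 3) ∧
    (∀ p q, p ≠ q → {l | I p l ∧ I q l}.Subsingleton) ∧
    ∀ p q, Relation.EqvGen (fun a b => ∃ l, I a l ∧ I b l) p q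

/-- an orientation: a cyclic order on each block -/
def IsOri {α β : Type} (I : α → β → Prop) (o : β → Equiv.Perm α) : Prop :=
  ∀ l, (o l).IsCycleOn {p | I p l}

/-- upper embeddable in the orientation `o`, via rotation systems of the associated graph -/
def Upper {α β : Type} (I : α → β → Prop) (o : β → Equiv.Perm α) : Prop :=
  ∃ ρ : α → Equiv.Perm α, (∀ v, (ρ v).IsCycleOn {u | v ≠ u ∧ ∃ l, I v l ∧ I u l}) ∧
    (∀ l u, I u l → ρ (o l u) u = o l (o l u)) ∧
    ∀ l u l' u', I u l → I u' l' →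
      ∃ n, (fun d : α × α => (d.2, ρ d.2 d.1))^[n] (o l u, u) = (o l' u', u')

theorem nc {s : Set Z} {n : ℕ} (p : Z → Prop) [DecidablePred p]
    (h : (Finset.univ.filter p).card = n) (hs : s = {x | p x}) : s.ncard = n := by
  rw [← h, ← Set.ncard_coe_finset, hs]
  congr 1
  ext x
  simp

theorem result : ∃ (α β : Type) (I : α → β → Prop), Config3 I ∧
    ∃ o₁ o₂, IsOri I o₁ ∧ IsOri I o₂ ∧ Upper I o₁ ∧ ¬ Upper I o₂ := by
  refine ⟨Z, Z, Inc, ⟨inferInstance, inferInstance, rfl,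
    fun l => nc _ (cfg1 l) rfl, fun l => nc _ (cfg2 l) rfl, fun p q h => ?_, conn⟩, o1, o2,
    ori1, ori2, ⟨r1, rot1, face1, one1⟩, fun ⟨ρ, a, b, c⟩ => no2 ρ a b c⟩
  intro a ha b hb
  exact Finset.card_le_one.1 (cfg3 p q h) a (by simpa using ha) b (by simpa using hb)

end Pool.Agent.Results.MP_e7dc11_co.No
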